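import Pool.Agent.Lib_helper51.GL.Defs
import Pool.Agent.Lib_helper22.GL.CHG
import Pool.Agent.Lib_helper56.GL.CS
import Pool.Agent.Lib_helper94.GL.GG12
import Pool.Agent.Lib_helper72.PQ.R1
import Pool.Agent.Lib_helper61.PQ.R4

/-!
# Block H12 of project GL: the class numbers of `ℤ[√-n]` and `ℤ[√-2n]`, `n ≡ 1 mod 8`
-/

set_option autoImplicit false

namespace Pool.Agent.GL

open Finset Pool.Agent.PQ Pool.Agent.TM32

private theorem h12_jac_congr (n : ℕ) (a b : ℤ) (h : ∀ p : ℕ, p.Prime → p ∣ n → jacobiSym a p = jacobiSym b p) :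
    jacobiSym a n = jacobiSym b n := by
  induction n using Nat.recOnMul with
  | zero => simp
  | one => simp
  | prime p hp => exact h p hp dvd_rfl
  | mul m k hm hk =>
    rcases eq_or_ne m 0 with rfl | hm0
    · simp
    rcases eq_or_ne k 0 with rfl | hk0
    · simp
    have : NeZero m := ⟨hm0⟩
    have : NeZero k := ⟨hk0⟩
    rw [jacobiSym.mul_right, jacobiSym.mul_right, hm fun p hp hd => h p hp (hd.mul_right k),
      hk fun p hp hd => h p hp (hd.mul_left m)]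

private theorem h12_jac_prod (n : ℕ) (hn : Squarefree n) (a : ℤ) :
    ∏ p ∈ n.primeFactors, jacobiSym a p = jacobiSym a n := by
  have h1 : jacobiSym a (∏ p ∈ n.primeFactors, p) = ∏ p ∈ n.primeFactors, jacobiSym a p := by
    have : ∀ s : Finset ℕ, (∀ p ∈ s, p ≠ 0) → jacobiSym a (∏ p ∈ s, p) = ∏ p ∈ s, jacobiSym a p := by
      intro s
      induction s using Finset.induction_on with
      | empty => intro _; simp
      | insert q s hq ih =>
        intro hs
        have hq0 : q ≠ 0 := hs q (Finset.mem_insert_self _ _)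
        have hs0 : ∏ p ∈ s, p ≠ 0 := Finset.prod_ne_zero_iff.2 fun p hp => hs p (Finset.mem_insert_of_mem hp)
        have : NeZero q := ⟨hq0⟩
        have : NeZero (∏ p ∈ s, p) := ⟨hs0⟩
        rw [Finset.prod_insert hq, Finset.prod_insert hq, jacobiSym.mul_right,
          ih fun p hp => hs p (Finset.mem_insert_of_mem hp)]
    exact this _ fun p hp => (Nat.prime_of_mem_primeFactors hp).ne_zero
  rw [← h1, Nat.prod_primeFactors_of_squarefree hn]

/-- the Jacobi symbol of `a` when `a² = x² + n y²` -/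
private theorem h12_main (n a : ℕ) (h1 : n % 8 = 1) (hp : ∀ p : ℕ, p.Prime → p ∣ n → p % 4 = 1)
    (hn1 : 1 < n) (ha : Nat.Coprime a (2 * n)) (x y : ℤ) (hxy : IsCoprime x y)
    (h : (a : ℤ) ^ 2 = x ^ 2 + n * y ^ 2) : jacobiSym a n = 1 := by
  have ho : Odd n := Nat.odd_iff.2 (by omega)
  have han : IsCoprime (a : ℤ) n := Nat.isCoprime_iff_coprime.2 (Nat.Coprime.coprime_dvd_right (Dvd.intro_left 2 rfl) ha)
  have hnx : IsCoprime (n : ℤ) x := by
    have h2 : IsCoprime (n : ℤ) (x ^ 2 + n * y ^ 2) := by rw [← h]; exact (han.pow_left (m := 2)).symm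
    have h3 : IsCoprime (n : ℤ) (x ^ 2) := by
      have := h2.add_mul_left_right (-y ^ 2)
      rwa [show x ^ 2 + (n : ℤ) * y ^ 2 + n * (-y ^ 2) = x ^ 2 by ring] at this
    exact (IsCoprime.pow_right_iff (by norm_num)).1 h3
  have hax : IsCoprime (a : ℤ) x := by
    have h2 : IsCoprime (n * y ^ 2 : ℤ) x := IsCoprime.mul_left hnx (hxy.symm.pow_left)
    have h3 : IsCoprime (n * y ^ 2 + x * x : ℤ) x := h2.add_mul_left_left x
    have h4 : IsCoprime ((a : ℤ) ^ 2) x := by rw [h]; convert h3 using 1; ring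
    exact (IsCoprime.pow_left_iff (by norm_num)).1 h4
  have hx0 : x ≠ 0 := by
    rintro rfl
    have : IsUnit (n : ℤ) := isCoprime_zero_right.1 hnx
    rw [Int.isUnit_iff] at this
    omega
  -- step 1
  have s1 : jacobiSym a n = jacobiSym x n := by
    apply h12_jac_congr
    intro p hpp hd
    have : Fact p.Prime := ⟨hpp⟩
    have hp4 := hp p hpp hd
    have hz : ((a : ℤ) : ZMod p) ^ 2 = (x : ZMod p) ^ 2 := by
      have := congrArg (Int.cast : ℤ → ZMod p) h
      push_cast at this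
      have h0 : (n : ZMod p) = 0 := (ZMod.natCast_eq_zero_iff n p).2 hd
      rw [h0, zero_mul, add_zero] at this
      simpa using this
    rcases sq_eq_sq_iff_eq_or_eq_neg.1 hz with hz | hz
    · have h5 : ((a : ℤ) % p) = x % p := (ZMod.intCast_eq_intCast_iff' _ _ _).1 hz
      rw [jacobiSym.mod_left, h5, ← jacobiSym.mod_left]
    · have h5 : ((a : ℤ) % p) = (-x) % p := (ZMod.intCast_eq_intCast_iff' _ _ _).1 (by rw [hz]; push_cast; rfl)
      rw [jacobiSym.mod_left, h5, ← jacobiSym.mod_left, jacobiSym.neg x (Nat.odd_iff.2 (by omega)),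
        ZMod.χ₄_nat_one_mod_four hp4, one_mul]
  rw [s1]
  -- step 2
  obtain ⟨k, m, hm, hxm⟩ : ∃ (k m : ℕ), ¬ 2 ∣ m ∧ x.natAbs = 2 ^ k * m := by
    obtain ⟨k, m, hm, hxm⟩ := Nat.exists_eq_pow_mul_and_not_dvd (Int.natAbs_ne_zero.2 hx0) 2 (by norm_num)
    exact ⟨k, m, hm, hxm⟩
  have hmo : Odd m := by rwa [← Nat.not_even_iff_odd, even_iff_two_dvd]
  have s2 : jacobiSym x n = jacobiSym (x.natAbs : ℤ) n := by
    rcases Int.natAbs_eq x with hx | hx
    · rw [← hx]
    · conv_lhs => rw [hx]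
      rw [jacobiSym.neg _ ho, ZMod.χ₄_nat_one_mod_four (by omega), one_mul]
  have s3 : jacobiSym (x.natAbs : ℤ) n = jacobiSym (m : ℤ) n := by
    rw [hxm]
    push_cast
    rw [jacobiSym.mul_left, jacobiSym.pow_left, jacobiSym.at_two ho, ZMod.χ₈_nat_eq_if_mod_eight]
    have : n % 2 ≠ 0 := by omega
    rw [if_neg this, if_pos (Or.inl h1), one_pow, one_mul]
  have hmx : (m : ℤ) ∣ x := by
    rw [← Int.dvd_natAbs, hxm]; push_cast; exact Dvd.intro_left _ rfl
  have s4 : jacobiSym (n : ℤ) m = 1 := by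
    have hym : IsCoprime y m := (hxy.symm).of_isCoprime_of_dvd_right hmx
    have ham : IsCoprime (a : ℤ) m := hax.of_isCoprime_of_dvd_right hmx
    have e1 : jacobiSym ((n : ℤ) * y ^ 2) m = jacobiSym ((a : ℤ) ^ 2) m := by
      rw [jacobiSym.mod_left, jacobiSym.mod_left ((a : ℤ) ^ 2)]
      congr 1
      rw [h]
      apply Int.emod_emod_of_dvd _ (dvd_refl _) |>.symm.trans
      rw [Int.emod_emod_of_dvd _ (dvd_refl _)]
      apply Int.ModEq.symm
      rw [Int.modEq_iff_dvd]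
      obtain ⟨t, ht⟩ := hmx
      refine ⟨-(t * x), ?_⟩
      rw [ht]; ring
    rw [jacobiSym.mul_left, jacobiSym.sq_one' (Int.isCoprime_iff_gcd_eq_one.1 hym),
      jacobiSym.sq_one' (Int.isCoprime_iff_gcd_eq_one.1 ham), mul_one] at e1
    exact e1
  rw [s2, s3, ← jacobiSym.quadratic_reciprocity_one_mod_four (by omega) hmo, s4]

private theorem h12_units {u v : ℤˣ} (h : (u : ℤ) = (v : ℤ)) : u = v := Units.ext h

private theorem h12_pm (ε : ℤˣ) : ((ε : ℤˣ) : ℤ) = 1 ∨ ((ε : ℤˣ) : ℤ) = -1 := by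
  rcases Int.units_eq_one_or ε with h | h <;> rw [h] <;> simp

theorem h_one (n : ℕ) [NeZero n] (hn : One n) : 2 ^ (w n + 1) ∣ h n := by
  classical
  obtain ⟨hsq, hn1, h8, hp4⟩ := hn
  rcases finite_or_infinite (ClassGroup (Od n)) with hfin | hinf
  swap
  · have : h n = 0 := Nat.card_eq_zero_of_infinite (α := ClassGroup (Od n))
    rw [this]; exact dvd_zero _
  have hc : ∀ p : ℕ, ∃ χ : ClassGroup (Od n) →* ℤˣ, p ∣ n →
      ∀ (C : ClassGroup (Od n)) (a : ℕ) (r : ℤ), Rp n C a r → ((χ C : ℤˣ) : ℤ) = jacobiSym a p := by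
    intro p
    by_cases hp : p ∣ n
    · obtain ⟨χ, hχ⟩ := chg n p hp
      exact ⟨χ, fun _ => hχ⟩
    · exact ⟨1, fun h => absurd h hp⟩
  choose χ hχ using hc
  have hs : ∀ ε : ℕ → ℤˣ, ∃ g, ∀ p ∈ n.primeFactors, χ p g = ε p := by
    intro ε
    obtain ⟨C, a, r, hr, hC⟩ := cs_one n hsq h8 (fun p => ((ε p : ℤˣ) : ℤ)) (fun p => h12_pm _)
    refine ⟨C, fun p hp => h12_units ?_⟩
    rw [hχ p (Nat.dvd_of_mem_primeFactors hp) C a r hr, hC p (Nat.prime_of_mem_primeFactors hp)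
      (Nat.dvd_of_mem_primeFactors hp)]
  have hprod : ∀ g, (∏ p ∈ n.primeFactors, χ p) g = ∏ p ∈ n.primeFactors, χ p g := fun g => by
    rw [MonoidHom.finsetProd_apply]
  refine gg_dvd' (G := ClassGroup (Od n)) n.primeFactors χ hs (∏ p ∈ n.primeFactors, χ p) ?_ ?_
  · obtain ⟨q, hq, hqn⟩ := Nat.exists_prime_and_dvd (n := n) (by omega)
    obtain ⟨g, hg⟩ := hs (fun p => if p = q then -1 else 1)
    refine ⟨g, ?_⟩
    rw [hprod, Finset.prod_congr rfl hg, Finset.prod_ite_eq' n.primeFactors q (fun _ => (-1 : ℤˣ)),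
      if_pos (Nat.mem_primeFactors.2 ⟨hq, hqn, by omega⟩)]
  · intro C hC
    obtain ⟨a, r, hr⟩ := rp_exists n C
    obtain ⟨x, y, hxy, ha, -⟩ := rp_sq_one n C a r hr hC
    rw [hprod]
    apply h12_units
    rw [Units.coe_prod, Finset.prod_congr rfl fun p hp => hχ p (Nat.dvd_of_mem_primeFactors hp) C a r hr,
      h12_jac_prod n hsq, h12_main n a h8 hp4 hn1 hr.2.1 x y hxy ha]
    rfl

theorem h_two (n : ℕ) [NeZero (2 * n)] (hn : Squarefree n) (h1 : n % 8 = 1) : 2 ^ w n ∣ h (2 * n) := by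
  classical
  rcases finite_or_infinite (ClassGroup (Od (2 * n))) with hfin | hinf
  swap
  · have : h (2 * n) = 0 := Nat.card_eq_zero_of_infinite (α := ClassGroup (Od (2 * n)))
    rw [this]; exact dvd_zero _
  have hc : ∀ p : ℕ, ∃ χ : ClassGroup (Od (2 * n)) →* ℤˣ, p ∣ 2 * n →
      ∀ (C : ClassGroup (Od (2 * n))) (a : ℕ) (r : ℤ), Rp (2 * n) C a r → ((χ C : ℤˣ) : ℤ) = jacobiSym a p := by
    intro p
    by_cases hp : p ∣ 2 * n
    · obtain ⟨χ, hχ⟩ := chg (2 * n) p hp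
      exact ⟨χ, fun _ => hχ⟩
    · exact ⟨1, fun h => absurd h hp⟩
  choose χ hχ using hc
  refine gg_dvd (G := ClassGroup (Od (2 * n))) n.primeFactors χ ?_
  intro ε
  obtain ⟨C, a, r, hr, hC⟩ := cs_two n hn h1 (fun p => ((ε p : ℤˣ) : ℤ)) (fun p => h12_pm _)
  refine ⟨C, fun p hp => h12_units ?_⟩
  rw [hχ p ((Nat.dvd_of_mem_primeFactors hp).mul_left 2) C a r hr, hC p (Nat.prime_of_mem_primeFactors hp)
    (Nat.dvd_of_mem_primeFactors hp)]

end Pool.Agent.GL
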